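import Pool.Agent.Helper20.FP.LineStm

set_option autoImplicit false

/-!
# The line lemma
-/

namespace Pool.Agent.Helper5.FP

open MvPolynomial Pool.Agent.Helper20.FP

theorem iteratedDeriv_line (a b : ℂ) (m : ℕ) :
    iteratedDeriv m (fun w : ℂ => a + b * w) 0 = if m = 0 then a else if m = 1 then b else 0 := by
  have h1 : deriv (fun w : ℂ => a + b * w) = fun _ => b := by
    funext w
    have : HasDerivAt (fun w : ℂ => a + b * w) (b * 1) w :=
      ((hasDerivAt_id w).const_mul b).const_add a
    rw [this.deriv, mul_one]
  rcases m with _ | m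
  · simp
  · rw [iteratedDeriv_succ', h1]
    rcases m with _ | m
    · simp
    · rw [iteratedDeriv_succ']
      have h2 : deriv (fun _ : ℂ => b) = fun _ => 0 := by funext w; simp
      rw [h2]
      have h3 : ∀ m : ℕ, iteratedDeriv m (fun _ : ℂ => (0 : ℂ)) 0 = 0 := by
        intro m
        rw [iteratedDeriv_const]
        split_ifs <;> rfl
      rw [h3]
      simp

theorem line : S_Line := by
  classical
  intro k q N d F hF U hUc f hf hFz hlt hrel i j z hz z' hz'
  by_contra hne
  have hij : i ≠ j := by
    rintro rfl
    exact hne rfl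
  have hdet : f z i * f z' j - f z j * f z' i ≠ 0 := sub_ne_zero.2 hne
  have hab : ∀ l, ∃ ab : ℂ × ℂ, ∀ w ∈ U, f w l = ab.1 * f w i + ab.2 * f w j := by
    intro l
    obtain ⟨c, hc, hrel'⟩ := hrel ![i, j, l]
    have h3 : ∀ w ∈ U, c 0 * f w i + c 1 * f w j + c 2 * f w l = 0 := by
      intro w hw
      have := hrel' w hw
      rw [Fin.sum_univ_three] at this
      simpa using this
    by_cases hc2 : c 2 = 0
    · exfalso
      have e1 := h3 z hz
      have e2 := h3 z' hz'
      rw [hc2, zero_mul, add_zero] at e1 e2
      have h0 : c 0 * (f z i * f z' j - f z j * f z' i) = 0 := by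
        linear_combination f z' j * e1 - f z j * e2
      have h1 : c 1 * (f z i * f z' j - f z j * f z' i) = 0 := by
        linear_combination f z i * e2 - f z' i * e1
      have h0' := (mul_eq_zero.1 h0).resolve_right hdet
      have h1' := (mul_eq_zero.1 h1).resolve_right hdet
      apply hc
      funext a
      fin_cases a
      · exact h0'
      · exact h1'
      · exact hc2
    · refine ⟨(-c 0 / c 2, -c 1 / c 2), fun w hw => ?_⟩
      have h4 := h3 w hw
      simp only
      field_simp
      linear_combination h4
  choose ab habw using hab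
  obtain ⟨a, ha⟩ : ∃ a : Fin (N + 1) → ℂ,
      a = fun l => if l = i then 1 else if l = j then 0 else (ab l).1 := ⟨_, rfl⟩
  obtain ⟨b, hb⟩ : ∃ b : Fin (N + 1) → ℂ,
      b = fun l => if l = i then 0 else if l = j then 1 else (ab l).2 := ⟨_, rfl⟩
  have hai : a i = 1 := by rw [ha]; simp
  have hbi : b i = 0 := by rw [hb]; simp
  have haj : a j = 0 := by rw [ha]; simp [hij.symm]
  have hbj : b j = 1 := by rw [hb]; simp [hij.symm]
  have hfl : ∀ l, ∀ w ∈ U, f w l = a l * f w i + b l * f w j := by
    intro l w hw
    by_cases h1 : l = i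
    · rw [h1, hai, hbi]; ring
    · by_cases h2 : l = j
      · rw [h2, haj, hbj]; ring
      · have e1 : a l = (ab l).1 := by rw [ha]; simp [h1, h2]
        have e2 : b l = (ab l).2 := by rw [hb]; simp [h1, h2]
        rw [e1, e2]
        exact habw l w hw
  -- the binary forms
  have hzero : ∀ (m : Fin q) (w : ℂ), eval (fun l => a l + b l * w) (F m) = 0 := by
    intro m w
    set G : MvPolynomial (Fin 2) ℂ :=
      aeval (fun l => C (a l) * X 0 + C (b l) * X 1) (F m) with hG
    have hGe : ∀ v : Fin 2 → ℂ, eval v G = eval (fun l => a l * v 0 + b l * v 1) (F m) := by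
      intro v
      have h1 : (aeval v : MvPolynomial (Fin 2) ℂ →ₐ[ℂ] ℂ).comp
          (aeval (fun l => C (a l) * X 0 + C (b l) * X 1) :
            MvPolynomial (Fin (N + 1)) ℂ →ₐ[ℂ] MvPolynomial (Fin 2) ℂ) =
          aeval (fun l => a l * v 0 + b l * v 1) := by
        apply MvPolynomial.algHom_ext
        intro l
        simp
      have h2 := DFunLike.congr_fun h1 (F m)
      exact h2
    have hGh : G.IsHomogeneous (1 * d m) := by
      refine (hF.1 m).aeval _ fun l => ?_
      refine IsHomogeneous.add ?_ ?_
      · exact (isHomogeneous_C_mul_X _ _)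
      · exact (isHomogeneous_C_mul_X _ _)
    have hG0 : G = 0 := by
      by_contra hG0
      have h3 : ∀ w ∈ U, eval ![f w i, f w j] G = 0 := by
        intro w hw
        rw [hGe, ← hFz m w hw]
        congr 1
        congr 1
        funext l
        rw [hfl l w hw]
        simp
      rcases binary hUc (hf i) (hf j) hGh hG0 h3 with h4 | ⟨r, h4⟩
      · apply hne
        rw [h4 z hz, h4 z' hz']; ring
      · apply hne
        rw [sub_eq_zero.mp (h4 z hz), sub_eq_zero.mp (h4 z' hz')]; ring
    have h5 := hGe ![1, w]
    rw [hG0, map_zero] at h5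
    rw [h5]
    congr 1
    congr 1
    funext l
    simp
  -- the parameters of the line
  have hpar : Parameters k Set.univ (coordValues F fun w l => a l + b l * w) (2 * (N - 1)) := by
    have hcard : Fintype.card (Fin 2 × {l : Fin (N + 1) // l ≠ i ∧ l ≠ j}) = 2 * (N - 1) := by
      rw [Fintype.card_prod, Fintype.card_fin]
      congr 1
      rw [Fintype.card_subtype]
      have h1 : (Finset.univ.filter fun l : Fin (N + 1) => l ≠ i ∧ l ≠ j) =
          Finset.univ \ {i, j} := by
        ext l; simp
      rw [h1, Finset.card_sdiff_of_subset (Finset.subset_univ _), Finset.card_univ,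
        Fintype.card_fin, Finset.card_pair hij]
      omega
    let e := Fintype.equivFinOfCardEq hcard
    refine ⟨0, Set.mem_univ _, fun x => if (e.symm x).1 = 0 then a (e.symm x).2.1 else
      b (e.symm x).2.1, fun ι m => ?_⟩
    set t : Fin (2 * (N - 1)) → ℂ := fun x => if (e.symm x).1 = 0 then a (e.symm x).2.1 else
      b (e.symm x).2.1 with ht
    have hmem : ∀ x ∈ Set.range t, IsAlgebraic (IntermediateField.adjoin k (Set.range t)) x := by
      intro x hx
      exact isAlgebraic_algebraMap (⟨x, IntermediateField.subset_adjoin _ _ hx⟩ :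
        IntermediateField.adjoin k (Set.range t))
    have hzz : IsAlgebraic (IntermediateField.adjoin k (Set.range t)) (0 : ℂ) :=
      isAlgebraic_zero
    have hoo : IsAlgebraic (IntermediateField.adjoin k (Set.range t)) (1 : ℂ) :=
      isAlgebraic_one
    have hA : ∀ l, IsAlgebraic (IntermediateField.adjoin k (Set.range t)) (a l) := by
      intro l
      by_cases h1 : l = i
      · rw [h1, hai]; exact hoo
      · by_cases h2 : l = j
        · rw [h2, haj]; exact hzz
        · refine hmem _ ⟨e (0, ⟨l, h1, h2⟩), ?_⟩
          simp [ht]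
    have hB : ∀ l, IsAlgebraic (IntermediateField.adjoin k (Set.range t)) (b l) := by
      intro l
      by_cases h1 : l = i
      · rw [h1, hbi]; exact hzz
      · by_cases h2 : l = j
        · rw [h2, hbj]; exact hoo
        · refine hmem _ ⟨e (1, ⟨l, h1, h2⟩), ?_⟩
          simp [ht]
    rcases ι with l | r
    · have h1 : coordValues F (fun w l => a l + b l * w) (Sum.inl l) =
          fun w : ℂ => a l + b l * w := rfl
      rw [h1, iteratedDeriv_line]
      split_ifs
      · exact hA l
      · exact hB l
      · exact hzz
    · have h1 : coordValues F (fun w l => a l + b l * w) (Sum.inr r) = fun _ : ℂ => 0 := by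
        funext w
        exact hzero r w
      rw [h1, iteratedDeriv_const]
      split_ifs <;> exact hzz
  have hg : ∀ l, AnalyticOnNhd ℂ (fun w : ℂ => (fun w l => a l + b l * w) w l) Set.univ := by
    intro l
    exact (analyticOnNhd_const).add (analyticOnNhd_const.mul analyticOnNhd_id)
  have hfin := constant_of_lt hF isPreconnected_univ (f := fun w l => a l + b l * w) hg hpar hlt
    i j 0 (Set.mem_univ _) 1 (Set.mem_univ _)
  simp only [hai, hbi, haj, hbj] at hfin
  norm_num at hfin

end Pool.Agent.Helper5.FP
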